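import Pool.Agent.P8H21.AKE.Final2

/-!
# MP_65f174_lc, question Q2: the transfer principle holds for every standard fragment

The standard fragments are `∃`, `∀∃`, `∃∀∃`, ... (`n` alternating blocks of quantifiers, the last one existential,
`n ≥ 1`). Q2 asks, for henselian nontrivially valued fields `(K, v)` and `(L, w)` of equal characteristic zero and for
every standard fragment `Φ`, whether `Th_Φ(Kv) ⊆ Th_Φ(Lw)` and `Th_Φ(vK) ⊆ Th_Φ(wL)` imply
`Th_Φ(K, v) ⊆ Th_Φ(L, w)`. The answer is yes, for every `Φ`.

A valued field is given by a field `K` and a valuation ring `O` of `K`. The definitions are in:

* `Pool/Agent/P8H21/AKE/Lang1.lean`: one-sorted languages and their fragments (`Fr`, `Fr.Holds`); `Str.thy I n` is the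
  set of the sentences with `n` alternating blocks of quantifiers, the last one existential, which are true in the
  structure `I`; `ringStr k` is the ring `k` as a structure for the language of rings; `grpStr Γ` is the group of the
  nonzero elements of `Γ` as an ordered abelian group (written additively, with the order reversed), so that
  `grpStr O.ValueGroup` is the value group `vK`;
* `Pool/Agent/P8H21/AKE/Lang3.lean`: the three-sorted language of valued fields and its fragments; `vfThy O n` is the
  set of its sentences with `n` alternating blocks of quantifiers, the last one existential, which are true in the
  valued field given by `O`.

The proof: an embedding theorem for countable henselian valued fields with angular components into countably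
saturated ones (one step for the extension of residue field and value group, one for immediate extensions), the
existence of angular components on ultrapowers, and a game with countable moves in ultrapowers, in which the moves in
the residue fields and in the value groups are made separately.
-/

set_option autoImplicit false

universe u w

namespace Pool.Agent.Results.MP_65f174_lc.TransferForAllFragments

open Pool.Agent.P8H21.AKE

/-- Let `O`, `O'` be henselian valuation rings of the fields `K`, `L` with residue fields of characteristic zero, and
let `n` be a natural number. If every sentence of the language of rings with `n` alternating blocks of quantifiers,
the last one existential, which is true in the residue field of `O` is true in the residue field of `O'`, and every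
such sentence of the language of ordered abelian groups which is true in the value group of `O` is true in the value
group of `O'`, then every such sentence of the three-sorted language of valued fields which is true in the valued
field `(K, O)` is true in the valued field `(L, O')`. -/
theorem result {K : Type u} {L : Type w} [Field K] [Field L] (O : ValuationSubring K) (O' : ValuationSubring L)
    [HenselianLocalRing O] [HenselianLocalRing O'] [CharZero (IsLocalRing.ResidueField O)]
    [CharZero (IsLocalRing.ResidueField O')] (n : ℕ)
    (hres : (ringStr (IsLocalRing.ResidueField O)).thy n ⊆ (ringStr (IsLocalRing.ResidueField O')).thy n)
    (hval : (grpStr O.ValueGroup).thy n ⊆ (grpStr O'.ValueGroup).thy n) :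
    vfThy O n ⊆ vfThy O' n :=
  main O O' n hres hval

end Pool.Agent.Results.MP_65f174_lc.TransferForAllFragments
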